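import Pool.Agent.E8helper43.ER.Stm

set_option autoImplicit false

/-!
# Project ER: tent functions
-/

namespace Pool.Agent.E8helper37.ER

open Finset Pool.Agent.E8helper43.ER

/-- the tent function -/
noncomputable def F (T x : ℝ) : ℝ := max 0 (T - |x - T|)

lemma F_neg {T x : ℝ} (hT : 0 ≤ T) (hx : x ≤ 0) : F T x = 0 := by
  unfold F
  rw [abs_of_nonpos (by linarith)]
  exact max_eq_left (by linarith)

lemma F_up {T x : ℝ} (h0 : 0 ≤ x) (h1 : x ≤ T) : F T x = x := by
  unfold F
  rw [abs_of_nonpos (by linarith), max_eq_right (by linarith)]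
  ring

lemma F_down {T x : ℝ} (h0 : T ≤ x) (h1 : x ≤ 2 * T) : F T x = 2 * T - x := by
  unfold F
  rw [abs_of_nonneg (by linarith), max_eq_right (by linarith)]
  ring

lemma F_big {T x : ℝ} (hT : 0 ≤ T) (h1 : 2 * T ≤ x) : F T x = 0 := by
  unfold F
  rw [abs_of_nonneg (by linarith)]
  exact max_eq_left (by linarith)

lemma F_lip (T x y : ℝ) : |F T x - F T y| ≤ |x - y| := by
  unfold F
  rw [max_comm 0 _, max_comm 0 _]
  refine (abs_max_sub_max_le_abs _ _ _).trans ?_
  have e : T - |x - T| - (T - |y - T|) = |y - T| - |x - T| := by ring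
  rw [e]
  refine (abs_abs_sub_abs_le _ _).trans ?_
  have e2 : y - T - (x - T) = -(x - y) := by ring
  rw [e2, abs_neg]

lemma val {T : ℝ} (hT : 0 ≤ T) (i l : ℕ) :
    (if i ≤ l then F T ((l - i : ℕ) : ℝ) else 0) = F T ((l : ℝ) - i) := by
  split_ifs with h
  · rw [Nat.cast_sub h]
  · rw [F_neg hT]
    have : (l : ℝ) ≤ i := by exact_mod_cast (not_le.1 h).le
    linarith

/-- **S_TENT** -/
theorem t_TENT : S_TENT := by
  intro n ε hε
  obtain ⟨T, hT⟩ := exists_nat_ge (((n : ℝ) + 1) ^ 3 / ε + n + 1)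
  have hn0 : (0 : ℝ) ≤ n := n.cast_nonneg
  have hd0 : 0 ≤ ((n : ℝ) + 1) ^ 3 / ε := by positivity
  have hT1 : ((n : ℝ) + 1) ^ 3 ≤ T * ε := by
    have h1 : ((n : ℝ) + 1) ^ 3 / ε ≤ T := by linarith
    rwa [div_le_iff₀ hε] at h1
  have hTn : (n : ℝ) + 1 ≤ T := by linarith
  have hTn' : n + 1 ≤ T := by exact_mod_cast hTn
  have hT0 : (0 : ℝ) < T := by linarith
  refine ⟨2 * T + 1, fun l => F T l, 1 / (2 * T), by positivity, ?_, ?_⟩
  · intro l hl
    have h1 : (2 : ℝ) * T + 1 ≤ l := by exact_mod_cast hl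
    exact F_big hT0.le (by linarith)
  · intro i j hi hj
    have hir : (i : ℝ) ≤ n := by exact_mod_cast hi
    have hjr : (j : ℝ) ≤ n := by exact_mod_cast hj
    have hi0 : (0 : ℝ) ≤ i := i.cast_nonneg
    have hj0 : (0 : ℝ) ≤ j := j.cast_nonneg
    obtain ⟨D, hD⟩ : ∃ D : ℝ, D = ((i : ℝ) - j) ^ 2 := ⟨_, rfl⟩
    have hD0 : 0 ≤ D := by rw [hD]; positivity
    have hDn : D ≤ ((n : ℝ) + 1) ^ 2 := by
      rw [hD]
      exact sq_le_sq' (by linarith) (by linarith)
    have e : shD n (2 * T + 1) (fun l => F T l) i j =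
        ∑ l ∈ range (n + (2 * T + 1)), (F T ((l : ℝ) - i) - F T ((l : ℝ) - j)) ^ 2 := by
      unfold shD
      refine Finset.sum_congr rfl fun l _ => ?_
      rw [← val hT0.le i l, ← val hT0.le j l]
    obtain ⟨Q, hQ⟩ : ∃ Q : ℝ, Q = shD n (2 * T + 1) (fun l => F T l) i j := ⟨_, rfl⟩
    have hup : Q ≤ ((n : ℝ) + 2 * T + 1) * D := by
      rw [hQ, e]
      have h1 : ∀ l ∈ range (n + (2 * T + 1)), (F T ((l : ℝ) - i) - F T ((l : ℝ) - j)) ^ 2 ≤ D := by
        intro l _
        rw [hD]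
        refine sq_le_sq.2 ((F_lip _ _ _).trans (le_of_eq ?_))
        have e3 : (l : ℝ) - i - (l - j) = -((i : ℝ) - j) := by ring
        rw [e3, abs_neg]
      refine (Finset.sum_le_card_nsmul _ _ _ h1).trans (le_of_eq ?_)
      rw [card_range, nsmul_eq_mul]
      push_cast
      ring
    have hlow : (2 * (T : ℝ) - 2 * n) * D ≤ Q := by
      rw [hQ, e]
      have hsub : Ico n T ∪ Ico (T + n) (2 * T) ⊆ range (n + (2 * T + 1)) := by
        intro l hl
        rw [mem_union, mem_Ico, mem_Ico] at hl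
        rw [mem_range]
        omega
      have hdis : Disjoint (Ico n T) (Ico (T + n) (2 * T)) := by
        rw [Finset.disjoint_left]
        intro l h1 h2
        rw [mem_Ico] at h1 h2
        omega
      refine le_trans ?_ (Finset.sum_le_sum_of_subset_of_nonneg hsub fun l _ _ => sq_nonneg _)
      rw [Finset.sum_union hdis]
      have s1 : ∑ l ∈ Ico n T, (F T ((l : ℝ) - i) - F T ((l : ℝ) - j)) ^ 2 = ((T : ℝ) - n) * D := by
        have h1 : ∀ l ∈ Ico n T, (F T ((l : ℝ) - i) - F T ((l : ℝ) - j)) ^ 2 = D := by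
          intro l hl
          rw [mem_Ico] at hl
          have l1 : (n : ℝ) ≤ l := by exact_mod_cast hl.1
          have l2 : (l : ℝ) ≤ T := by exact_mod_cast hl.2.le
          rw [F_up (by linarith) (by linarith), F_up (by linarith) (by linarith), hD]
          ring
        rw [Finset.sum_congr rfl h1, sum_const, Nat.card_Ico, nsmul_eq_mul,
          Nat.cast_sub (by omega)]
      have s2 : ∑ l ∈ Ico (T + n) (2 * T), (F T ((l : ℝ) - i) - F T ((l : ℝ) - j)) ^ 2 =
          ((T : ℝ) - n) * D := by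
        have h1 : ∀ l ∈ Ico (T + n) (2 * T), (F T ((l : ℝ) - i) - F T ((l : ℝ) - j)) ^ 2 = D := by
          intro l hl
          rw [mem_Ico] at hl
          have l1 : (T : ℝ) + n ≤ l := by exact_mod_cast hl.1
          have l2 : (l : ℝ) ≤ 2 * T := by exact_mod_cast hl.2.le
          rw [F_down (by linarith) (by linarith), F_down (by linarith) (by linarith), hD]
          ring
        rw [Finset.sum_congr rfl h1, sum_const, Nat.card_Ico, nsmul_eq_mul,
          Nat.cast_sub (by omega)]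
        push_cast
        ring
      rw [s1, s2]
      exact le_of_eq (by ring)
    rw [← hQ, ← hD, abs_le]
    have h2T : (0 : ℝ) < 2 * T := by linarith
    have hb : ((n : ℝ) + 1) * D ≤ T * ε := by
      refine le_trans ?_ hT1
      calc ((n : ℝ) + 1) * D ≤ ((n : ℝ) + 1) * ((n : ℝ) + 1) ^ 2 :=
            mul_le_mul_of_nonneg_left hDn (by linarith)
        _ = ((n : ℝ) + 1) ^ 3 := by ring
    have hTε : 0 ≤ T * ε := by positivity
    have e5 : 1 / (2 * (T : ℝ)) * Q - D = (Q - 2 * T * D) / (2 * T) := by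
      field_simp
    rw [e5, le_div_iff₀ h2T, div_le_iff₀ h2T]
    constructor
    · nlinarith
    · nlinarith

end Pool.Agent.E8helper37.ER
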